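import Pool.Agent.Helper34.EC.Defs
import Pool.Agent.Helper47.RR.B3

/-!
# Project EC, module EC-A8: the genus
-/

set_option autoImplicit false
set_option linter.unusedSectionVars false

namespace Pool.Agent.Helper7.EC

open Polynomial TensorProduct Pool.Agent.Helper16 Pool.Agent.Helper47.RR Pool.Agent.Helper34.EC

variable {F A : Type} [Field F] [CommRing A] [Algebra F A] {g : ℕ}

/-- The dimension of the space of the elements of order at most `M`, for `M` large. -/
theorem finrank_V (P : Filt F A g) : ∃ M0 : ℕ, ∀ M, M0 ≤ M →
    Module.finrank F (P.V M) + g = M + 1 := by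
  classical
  have hfin : (P.H)ᶜ.Finite := Set.finite_of_encard_eq_coe P.gaps
  obtain ⟨M0, hM0⟩ := hfin.bddAbove
  refine ⟨M0, fun M hM => ?_⟩
  have hcard : hfin.toFinset.card = g := by
    have h1 := P.gaps
    rw [hfin.encard_eq_coe_toFinset_card] at h1
    exact_mod_cast h1
  -- the elements of the semigroup up to `M`
  set S : Set P.H := {l | (l : ℕ) ≤ M} with hS
  have hSfin : S.Finite := by
    refine Set.Finite.of_finite_image (f := fun l : P.H => (l : ℕ)) ?_ Subtype.val_injective.injOn
    exact (Set.finite_Iic M).subset (by
      rintro x ⟨l, hl, rfl⟩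
      exact hl)
  have h1 : Module.finrank F (P.V M) = hSfin.toFinset.card := by
    have hli : LinearIndependent F (fun l : S => P.e l) :=
      P.e.linearIndependent.comp _ Subtype.val_injective
    have h2 : P.V M = Submodule.span F (Set.range fun l : S => P.e l) := by
      unfold Filt.V
      congr 1
      ext x
      constructor
      · rintro ⟨l, hl, rfl⟩
        exact ⟨⟨l, hl⟩, rfl⟩
      · rintro ⟨l, rfl⟩
        exact ⟨l, l.2, rfl⟩
    have : Fintype S := hSfin.fintype
    rw [h2, finrank_span_eq_card hli, ← Set.toFinset_card]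
    congr 1
    ext x
    simp
  have h3 : hSfin.toFinset.card + hfin.toFinset.card = M + 1 := by
    have h4 : hSfin.toFinset.card = (hSfin.toFinset.image (fun l : P.H => (l : ℕ))).card :=
      (Finset.card_image_of_injective _ Subtype.val_injective).symm
    rw [h4, ← Finset.card_union_of_disjoint, ← Finset.card_range (M + 1)]
    · congr 1
      ext x
      simp only [Finset.mem_union, Finset.mem_image, Set.Finite.mem_toFinset, Finset.mem_range,
        Set.mem_compl_iff]
      constructor
      · rintro (⟨l, hl, rfl⟩ | hx)
        · exact Nat.lt_succ_of_le hl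
        · exact Nat.lt_succ_of_le ((hM0 hx).trans hM)
      · intro hx
        by_cases hxH : x ∈ P.H
        · left
          exact ⟨⟨x, hxH⟩, Nat.lt_succ_iff.1 hx, rfl⟩
        · right
          exact hxH
    · rw [Finset.disjoint_left]
      intro x hx hx'
      rw [Finset.mem_image] at hx
      obtain ⟨l, _, rfl⟩ := hx
      rw [Set.Finite.mem_toFinset] at hx'
      exact hx' l.2
  rw [h1]
  omega

variable {L : Type} [IsDomain A] [Field L] [Algebra A L] [IsFractionRing A L] [Algebra F L]
  [IsScalarTower F A L]

/-- EC-A8 -/
theorem genus_eq [IsAlgClosed F] (hL : IsFunctionField F L) (P : Filt F A g) (v : Place F L)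
    (hv : ∀ M : ℕ, Lsp (Finsupp.single v (M : ℤ)) =
      (P.V M).map (IsScalarTower.toAlgHom F A L).toLinearMap) : genus F L = g := by
  obtain ⟨M0, hM0⟩ := finrank_V P
  set M : ℕ := max M0 (2 * genus F L).toNat with hM
  have h1 : 2 * genus F L - 1 ≤ degD (Finsupp.single v (M : ℤ)) := by
    unfold degD
    rw [Finsupp.sum_single_index rfl]
    have h2 : (2 * genus F L).toNat ≤ M := le_max_right _ _
    have h3 := Int.self_le_toNat (2 * genus F L)
    omega
  have h2 := ell_eq_of_large hL _ h1
  have h3 : ell (Finsupp.single v (M : ℤ)) = Module.finrank F (P.V M) := by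
    unfold ell
    rw [hv M]
    congr 1
    have hinj : Function.Injective (IsScalarTower.toAlgHom F A L).toLinearMap :=
      IsFractionRing.injective A L
    exact (LinearEquiv.finrank_eq (Submodule.equivMapOfInjective _ hinj (P.V M))).symm
  have h4 := hM0 M (le_max_left _ _)
  rw [h3] at h2
  unfold degD at h2
  rw [Finsupp.sum_single_index rfl] at h2
  omega

end Pool.Agent.Helper7.EC

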